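import Pool.Agent.U79.GZ.Stm

/-! Project GZ (helper79), package NRM2: norms have trivial symbols at the prime `2`. Scale to a primitive
solution of `2^b v z² = s² - 2^a u t²` in `ℤ_2`, approximate by integers modulo `16`. -/

set_option autoImplicit false

namespace Pool.Agent.U342.GZ

open Pool.Agent.U79.GZ (e2 w2 h2 S_NRM2)

namespace NRM2

/-- squares modulo 16 -/
theorem sq16 (z : ℤ) : ∃ k r : ℤ, z ^ 2 = 16 * k + r ∧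
    ((z % 2 = 0 ∧ (r = 0 ∨ r = 4)) ∨ (z % 2 = 1 ∧ (r = 1 ∨ r = 9))) := by
  refine ⟨z ^ 2 / 16, z ^ 2 % 16, by omega, ?_⟩
  have h : z % 16 = 0 ∨ z % 16 = 1 ∨ z % 16 = 2 ∨ z % 16 = 3 ∨ z % 16 = 4 ∨ z % 16 = 5 ∨
      z % 16 = 6 ∨ z % 16 = 7 ∨ z % 16 = 8 ∨ z % 16 = 9 ∨ z % 16 = 10 ∨ z % 16 = 11 ∨
      z % 16 = 12 ∨ z % 16 = 13 ∨ z % 16 = 14 ∨ z % 16 = 15 := by omega
  rcases h with h | h | h | h | h | h | h | h | h | h | h | h | h | h | h | h <;>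
    (have h2 : z ^ 2 % 16 = (z % 16) * (z % 16) % 16 := by rw [pow_two, Int.mul_emod]
     rw [h] at h2
     omega)

theorem core00 (u v z s t : ℤ) (hu : u % 2 = 1) (hv : v % 2 = 1)
    (h : (16 : ℤ) ∣ v * z ^ 2 - s ^ 2 + u * t ^ 2)
    (hp : ¬ (z % 2 = 0 ∧ s % 2 = 0 ∧ t % 2 = 0)) : ¬ (u % 4 = 3 ∧ v % 4 = 3) := by
  obtain ⟨kz, rz, hz, cz⟩ := sq16 z
  obtain ⟨ks, rs, hs, cs⟩ := sq16 s
  obtain ⟨kt, rt, ht, ct⟩ := sq16 t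
  have h' : (16 : ℤ) ∣ v * rz - rs + u * rt := by
    obtain ⟨m, hm⟩ := h
    exact ⟨m - (v * kz - ks + u * kt), by rw [hz, hs, ht] at hm; linear_combination hm⟩
  clear h hz hs ht
  rcases cz with ⟨cz, rfl | rfl⟩ | ⟨cz, rfl | rfl⟩ <;>
  rcases cs with ⟨cs, rfl | rfl⟩ | ⟨cs, rfl | rfl⟩ <;>
  rcases ct with ⟨ct, rfl | rfl⟩ | ⟨ct, rfl | rfl⟩ <;> omega

theorem core10 (u v z s t : ℤ) (hu : u % 2 = 1) (hv : v % 2 = 1)
    (h : (16 : ℤ) ∣ v * z ^ 2 - s ^ 2 + 2 * u * t ^ 2)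
    (hp : ¬ (z % 2 = 0 ∧ s % 2 = 0 ∧ t % 2 = 0)) :
    (u % 4 = 3 ∧ v % 4 = 3) ↔ (v % 8 = 3 ∨ v % 8 = 5) := by
  obtain ⟨kz, rz, hz, cz⟩ := sq16 z
  obtain ⟨ks, rs, hs, cs⟩ := sq16 s
  obtain ⟨kt, rt, ht, ct⟩ := sq16 t
  have h' : (16 : ℤ) ∣ v * rz - rs + 2 * u * rt := by
    obtain ⟨m, hm⟩ := h
    exact ⟨m - (v * kz - ks + 2 * u * kt), by rw [hz, hs, ht] at hm; linear_combination hm⟩
  clear h hz hs ht
  rcases cz with ⟨cz, rfl | rfl⟩ | ⟨cz, rfl | rfl⟩ <;>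
  rcases cs with ⟨cs, rfl | rfl⟩ | ⟨cs, rfl | rfl⟩ <;>
  rcases ct with ⟨ct, rfl | rfl⟩ | ⟨ct, rfl | rfl⟩ <;> omega

theorem core01 (u v z s t : ℤ) (hu : u % 2 = 1) (hv : v % 2 = 1)
    (h : (16 : ℤ) ∣ 2 * v * z ^ 2 - s ^ 2 + u * t ^ 2)
    (hp : ¬ (z % 2 = 0 ∧ s % 2 = 0 ∧ t % 2 = 0)) :
    (u % 4 = 3 ∧ v % 4 = 3) ↔ (u % 8 = 3 ∨ u % 8 = 5) := by
  obtain ⟨kz, rz, hz, cz⟩ := sq16 z
  obtain ⟨ks, rs, hs, cs⟩ := sq16 s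
  obtain ⟨kt, rt, ht, ct⟩ := sq16 t
  have h' : (16 : ℤ) ∣ 2 * v * rz - rs + u * rt := by
    obtain ⟨m, hm⟩ := h
    exact ⟨m - (2 * v * kz - ks + u * kt), by rw [hz, hs, ht] at hm; linear_combination hm⟩
  clear h hz hs ht
  rcases cz with ⟨cz, rfl | rfl⟩ | ⟨cz, rfl | rfl⟩ <;>
  rcases cs with ⟨cs, rfl | rfl⟩ | ⟨cs, rfl | rfl⟩ <;>
  rcases ct with ⟨ct, rfl | rfl⟩ | ⟨ct, rfl | rfl⟩ <;> omega

theorem core11 (u v z s t : ℤ) (hu : u % 2 = 1) (hv : v % 2 = 1)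
    (h : (16 : ℤ) ∣ 2 * v * z ^ 2 - s ^ 2 + 2 * u * t ^ 2)
    (hp : ¬ (z % 2 = 0 ∧ s % 2 = 0 ∧ t % 2 = 0)) :
    (u % 4 = 3 ∧ v % 4 = 3) ↔ ((u % 8 = 3 ∨ u % 8 = 5) ↔ ¬ (v % 8 = 3 ∨ v % 8 = 5)) := by
  obtain ⟨kz, rz, hz, cz⟩ := sq16 z
  obtain ⟨ks, rs, hs, cs⟩ := sq16 s
  obtain ⟨kt, rt, ht, ct⟩ := sq16 t
  have h' : (16 : ℤ) ∣ 2 * v * rz - rs + 2 * u * rt := by
    obtain ⟨m, hm⟩ := h
    exact ⟨m - (2 * v * kz - ks + 2 * u * kt), by rw [hz, hs, ht] at hm; linear_combination hm⟩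
  clear h hz hs ht
  rcases cz with ⟨cz, rfl | rfl⟩ | ⟨cz, rfl | rfl⟩ <;>
  rcases cs with ⟨cs, rfl | rfl⟩ | ⟨cs, rfl | rfl⟩ <;>
  rcases ct with ⟨ct, rfl | rfl⟩ | ⟨ct, rfl | rfl⟩ <;> omega

/-- the symbol at `2` in terms of the exponents modulo `2` and the odd parts -/
def hh (a b : ℕ) (u v : ℤ) : ZMod 2 := e2 u * e2 v + (a : ZMod 2) * w2 v + (b : ZMod 2) * w2 u

theorem core (a b : ℕ) (ha : a < 2) (hb : b < 2) (u v z s t : ℤ) (hu : u % 2 = 1)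
    (hv : v % 2 = 1) (h : (16 : ℤ) ∣ 2 ^ b * v * z ^ 2 - s ^ 2 + 2 ^ a * u * t ^ 2)
    (hp : ¬ (z % 2 = 0 ∧ s % 2 = 0 ∧ t % 2 = 0)) : hh a b u v = 0 := by
  have ha' : a = 0 ∨ a = 1 := by omega
  have hb' : b = 0 ∨ b = 1 := by omega
  have d11 : (1 : ZMod 2) + 1 = 0 := by decide
  rcases ha' with rfl | rfl <;> rcases hb' with rfl | rfl
  · have := core00 u v z s t hu hv (by simpa using h) hp
    unfold hh e2
    by_cases h1 : u % 4 = 3 <;> by_cases h2 : v % 4 = 3 <;> simp [h1, h2]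
    exact this ⟨h1, h2⟩
  · have := core01 u v z s t hu hv (by simpa using h) hp
    unfold hh e2 w2
    by_cases h1 : u % 4 = 3 <;> by_cases h2 : v % 4 = 3 <;>
      by_cases h3 : u % 8 = 3 ∨ u % 8 = 5 <;> simp [h1, h2, h3, d11] <;> tauto
  · have := core10 u v z s t hu hv (by simpa using h) hp
    unfold hh e2 w2
    by_cases h1 : u % 4 = 3 <;> by_cases h2 : v % 4 = 3 <;>
      by_cases h3 : v % 8 = 3 ∨ v % 8 = 5 <;> simp [h1, h2, h3, d11] <;> tauto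
  · have := core11 u v z s t hu hv (by simpa using h) hp
    unfold hh e2 w2
    by_cases h1 : u % 4 = 3 <;> by_cases h2 : v % 4 = 3 <;>
      by_cases h3 : v % 8 = 3 ∨ v % 8 = 5 <;> by_cases h4 : u % 8 = 3 ∨ u % 8 = 5 <;>
        simp [h1, h2, h3, h4, d11] <;> tauto

theorem appr16 (S : ℤ_[2]) : ∃ (s : ℤ) (S' : ℤ_[2]), S = s + 16 * S' := by
  have h := PadicInt.appr_spec (p := 2) 4 S
  rw [Ideal.mem_span_singleton] at h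
  obtain ⟨S', hS⟩ := h
  refine ⟨(S.appr 4 : ℤ), S', ?_⟩
  have : (((2 : ℕ) : ℤ_[2]) ^ 4) = 16 := by norm_num
  rw [this] at hS
  push_cast
  linear_combination hS

theorem even_iff (S S' : ℤ_[2]) (s : ℤ) (h : S = s + 16 * S') (hs : s % 2 = 0) :
    (2 : ℤ_[2]) ∣ S := by
  obtain ⟨k, hk⟩ : ∃ k, s = 2 * k := ⟨s / 2, by omega⟩
  refine ⟨k + 8 * S', ?_⟩
  rw [h, hk]
  push_cast
  ring

theorem prim (a b : ℕ) (ha : a < 2) (hb : b < 2) (u v : ℤ) (hu : u % 2 = 1)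
    (hv : v % 2 = 1) (Z S T : ℤ_[2])
    (h : (2 : ℤ_[2]) ^ b * v * Z ^ 2 = S ^ 2 - 2 ^ a * u * T ^ 2)
    (hp : ¬ ((2 : ℤ_[2]) ∣ Z ∧ (2 : ℤ_[2]) ∣ S ∧ (2 : ℤ_[2]) ∣ T)) : hh a b u v = 0 := by
  obtain ⟨z, Z', hZ⟩ := appr16 Z
  obtain ⟨s, S', hS⟩ := appr16 S
  obtain ⟨t, T', hT⟩ := appr16 T
  refine core a b ha hb u v z s t hu hv ?_ ?_
  · have h16 : ((2 : ℕ) : ℤ_[2]) ^ 4 ∣
        ((2 ^ b * v * z ^ 2 - s ^ 2 + 2 ^ a * u * t ^ 2 : ℤ) : ℤ_[2]) := by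
      refine ⟨-(2 ^ b * v * (2 * z * Z' + 16 * Z' ^ 2)) + (2 * s * S' + 16 * S' ^ 2)
        - 2 ^ a * u * (2 * t * T' + 16 * T' ^ 2), ?_⟩
      rw [hZ, hS, hT] at h
      push_cast
      linear_combination h
    rw [PadicInt.pow_p_dvd_int_iff] at h16
    norm_num at h16
    exact h16
  · rintro ⟨h1, h2, h3⟩
    exact hp ⟨even_iff Z Z' z hZ h1, even_iff S S' s hS h2, even_iff T T' t hT h3⟩

theorem desc (a b : ℕ) (ha : a < 2) (hb : b < 2) (u v : ℤ) (hu : u % 2 = 1)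
    (hv : v % 2 = 1) (N : ℕ) : ∀ S T : ℤ_[2],
    (2 : ℤ_[2]) ^ b * v * (2 ^ N) ^ 2 = S ^ 2 - 2 ^ a * u * T ^ 2 → hh a b u v = 0 := by
  induction N with
  | zero =>
    intro S T h
    refine prim a b ha hb u v hu hv (2 ^ 0) S T h ?_
    rintro ⟨h1, -, -⟩
    rw [pow_zero] at h1
    have h2 : IsUnit (2 : ℤ_[2]) := isUnit_of_dvd_one h1
    have h3 : ‖((2 : ℕ) : ℤ_[2])‖ = 1 := by
      rw [← PadicInt.isUnit_iff]; exact_mod_cast h2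
    rw [PadicInt.norm_p] at h3
    norm_num at h3
  | succ N ih =>
    intro S T h
    by_cases hd : (2 : ℤ_[2]) ∣ S ∧ (2 : ℤ_[2]) ∣ T
    · obtain ⟨⟨S', rfl⟩, ⟨T', rfl⟩⟩ := hd
      refine ih S' T' ?_
      have h4 : (4 : ℤ_[2]) ≠ 0 := by norm_num
      apply mul_left_cancel₀ h4
      linear_combination h
    · refine prim a b ha hb u v hu hv (2 ^ (N + 1)) S T h ?_
      rintro ⟨-, h2, h3⟩
      exact hd ⟨h2, h3⟩

theorem scale (r : ℚ_[2]) : ∃ N : ℕ, ∀ M : ℕ, N ≤ M → ‖(2 : ℚ_[2]) ^ M * r‖ ≤ 1 := by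
  obtain ⟨N, hN⟩ := pow_unbounded_of_one_lt ‖r‖ (one_lt_two)
  refine ⟨N, fun M hM => ?_⟩
  have h2 : ‖(2 : ℚ_[2])‖ = (2 : ℝ)⁻¹ := by
    have := Padic.norm_p (p := 2)
    exact_mod_cast this
  rw [norm_mul, norm_pow, h2, inv_pow]
  have h3 : (2 : ℝ) ^ N ≤ 2 ^ M := pow_le_pow_right₀ (by norm_num) hM
  rw [inv_mul_le_iff₀ (by positivity)]
  linarith

theorem field (a b : ℕ) (ha : a < 2) (hb : b < 2) (u v : ℤ) (hu : u % 2 = 1)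
    (hv : v % 2 = 1) (s t : ℚ_[2])
    (h : (2 : ℚ_[2]) ^ b * v = s ^ 2 - 2 ^ a * u * t ^ 2) : hh a b u v = 0 := by
  obtain ⟨N₁, h₁⟩ := scale s
  obtain ⟨N₂, h₂⟩ := scale t
  set N := max N₁ N₂ with hN
  have hs := h₁ N (le_max_left _ _)
  have ht := h₂ N (le_max_right _ _)
  obtain ⟨S, hS⟩ : ∃ S : ℤ_[2], (S : ℚ_[2]) = 2 ^ N * s := ⟨⟨_, hs⟩, rfl⟩
  obtain ⟨T, hT⟩ : ∃ T : ℤ_[2], (T : ℚ_[2]) = 2 ^ N * t := ⟨⟨_, ht⟩, rfl⟩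
  refine desc a b ha hb u v hu hv N S T ?_
  apply PadicInt.ext
  have c2 : (((2 : ℤ_[2])) : ℚ_[2]) = 2 := by
    have := PadicInt.coe_natCast (p := 2) 2
    exact_mod_cast this
  rw [PadicInt.coe_mul, PadicInt.coe_mul, PadicInt.coe_sub, PadicInt.coe_mul, PadicInt.coe_mul,
    PadicInt.coe_pow, PadicInt.coe_pow, PadicInt.coe_pow, PadicInt.coe_pow, PadicInt.coe_pow,
    PadicInt.coe_pow, PadicInt.coe_intCast, PadicInt.coe_intCast, c2, hS, hT]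
  linear_combination ((2 : ℚ_[2]) ^ N) ^ 2 * h

theorem odd_part (x : ℤ) (hx : x ≠ 0) :
    x = 2 ^ padicValInt 2 x * (x / 2 ^ padicValInt 2 x) ∧ (x / 2 ^ padicValInt 2 x) % 2 = 1 := by
  have h1 : ((2 : ℕ) : ℤ) ^ padicValInt 2 x ∣ x := padicValInt_dvd x
  have h1' : (2 : ℤ) ^ padicValInt 2 x ∣ x := by exact_mod_cast h1
  have h2 : 2 ^ padicValInt 2 x * (x / 2 ^ padicValInt 2 x) = x := Int.mul_ediv_cancel' h1'
  refine ⟨h2.symm, ?_⟩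
  by_contra hc
  have hc' : (x / 2 ^ padicValInt 2 x) % 2 = 0 := by omega
  obtain ⟨k, hk⟩ : ∃ k, x / 2 ^ padicValInt 2 x = 2 * k := ⟨(x / 2 ^ padicValInt 2 x) / 2, by omega⟩
  have h3 : ((2 : ℕ) : ℤ) ^ (padicValInt 2 x + 1) ∣ x := by
    refine ⟨k, ?_⟩
    rw [hk] at h2
    rw [← h2]
    push_cast
    have : padicValInt 2 (2 ^ padicValInt 2 x * (2 * k)) = padicValInt 2 x := by rw [h2]
    rw [this]
    ring
  rw [padicValInt_dvd_iff] at h3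
  rcases h3 with h3 | h3
  · exact hx h3
  · omega

theorem main (x y : ℤ) (hx : x ≠ 0) (hy : y ≠ 0)
    (h : ∃ s t : ℚ_[2], (y : ℚ_[2]) = s ^ 2 - x * t ^ 2) :
    e2 (x / 2 ^ padicValInt 2 x) * e2 (y / 2 ^ padicValInt 2 y) +
    (padicValInt 2 x : ZMod 2) * w2 (y / 2 ^ padicValInt 2 y) +
    (padicValInt 2 y : ZMod 2) * w2 (x / 2 ^ padicValInt 2 x) = 0 := by
  obtain ⟨s, t, h⟩ := h
  obtain ⟨hxu, hu⟩ := odd_part x hx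
  obtain ⟨hyv, hv⟩ := odd_part y hy
  set α := padicValInt 2 x with hα
  set β := padicValInt 2 y with hβ
  set u := x / 2 ^ α with hudef
  set v := y / 2 ^ β with hvdef
  have key := field (α % 2) (β % 2) (Nat.mod_lt _ (by norm_num)) (Nat.mod_lt _ (by norm_num))
    u v hu hv (s / 2 ^ (β / 2)) (t * 2 ^ (α / 2) / 2 ^ (β / 2)) ?_
  · unfold hh at key
    rw [ZMod.natCast_mod, ZMod.natCast_mod] at key
    exact key
  · have eα : (2 : ℚ_[2]) ^ α = 2 ^ (α % 2) * (2 ^ (α / 2)) ^ 2 := by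
      rw [← pow_mul, ← pow_add]; congr 1; omega
    have eβ : (2 : ℚ_[2]) ^ β = 2 ^ (β % 2) * (2 ^ (β / 2)) ^ 2 := by
      rw [← pow_mul, ← pow_add]; congr 1; omega
    have hx' : (x : ℚ_[2]) = 2 ^ α * u := by
      have := congrArg (fun z : ℤ => (z : ℚ_[2])) hxu
      push_cast at this
      exact this
    have hy' : (y : ℚ_[2]) = 2 ^ β * v := by
      have := congrArg (fun z : ℤ => (z : ℚ_[2])) hyv
      push_cast at this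
      exact this
    rw [hx', hy', eα, eβ] at h
    have hne : (2 : ℚ_[2]) ^ (β / 2) ≠ 0 := pow_ne_zero _ (by norm_num)
    field_simp
    linear_combination h

end NRM2

theorem t_NRM2 : S_NRM2 := by
  intro x y hx hy h
  exact NRM2.main x y hx hy h

end Pool.Agent.U342.GZ
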